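import Pool.Agent.Run7.h275.S.I4
import Pool.Agent.Run7.h596.SC.STK

/-!
# Strict normal crossings in the local rings of a scheme (piece SNS of helper275's project, helper216)
-/

set_option autoImplicit false
set_option linter.unusedVariables false

namespace Run7.h216.SC

open AlgebraicGeometry CategoryTheory Pool.Agent.W418.LU2 Pool.Agent.Run7.h275.RB Pool.Agent.Run7.h275.SC
open Run7.h596.SC

theorem stalkEquiv_coe {F : Type} [Field F] (B : Subring F) (x : PrimeSpectrum B) (b : B)
    (q : (LocalSubring.ofPrime B x.asIdeal).toSubring) (hq : (q : F) = (b : F)) :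
    stalkEquiv B x q = (StructureSheaf.toStalk B x).hom b := by
  have := StructureSheaf.IsLocalization.to_stalk B x
  have h1 : q = algebraMap B (LocalSubring.ofPrime B x.asIdeal).toSubring b := Subtype.ext hq
  rw [h1]
  exact (IsLocalization.algEquiv x.asIdeal.primeCompl (LocalSubring.ofPrime B x.asIdeal).toSubring
      ((Spec.structureSheaf B).presheaf.stalk x)).commutes b

theorem t_SNS : S_SNS := by
  intro F _ X Y π A B hAB j ι hj hι hcomm f U hU hNC z
  let z' : PrimeSpectrum B := z
  obtain ⟨V, hV, hlo⟩ := exists_center B z'.asIdeal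
  have h1 := hNC V hV
  rw [hlo] at h1
  obtain ⟨hloc, d, x, J, hspan, hdim, hJ⟩ := h1
  let e1 : (LocalSubring.ofPrime B z'.asIdeal).toSubring ≃+*
      ((Sp B).presheaf.stalk z) := stalkEquiv B z'
  let e2 : Y.presheaf.stalk (ι z) ≃+* ((Sp B).presheaf.stalk z) :=
    (asIso (ι.stalkMap z)).commRingCatIsoToRingEquiv
  let E : (LocalSubring.ofPrime B z'.asIdeal).toSubring ≃+* Y.presheaf.stalk (ι z) := e1.trans e2.symm
  refine ⟨d, fun i => E (x i), J, ?_, ?_, ?_⟩
  · have h2 : Set.range (fun i => E (x i)) = E '' Set.range x := by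
      rw [← Set.range_comp]
      rfl
    rw [h2, ← Ideal.map_span E (Set.range x), hspan]
    exact IsLocalRing.map_ringEquiv_maximalIdeal E
  · rw [← hdim]
    exact (ringKrullDim_eq_of_ringEquiv E).symm
  · intro w
    -- the point of the spectrum of the stalk of `Sp B`
    have h3 : IsIso (Spec.map (ι.stalkMap z)) := inferInstance
    obtain ⟨w', hw'⟩ : ∃ w' : Spec ((Sp B).presheaf.stalk z), Spec.map (ι.stalkMap z) w' = w := by
      refine ⟨(inv (Spec.map (ι.stalkMap z))) w, ?_⟩
      rw [← Scheme.Hom.comp_apply, IsIso.inv_hom_id]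
      rfl
    have h4 : (Y.fromSpecStalk (ι z) ≫ π) w =
        j (inc hAB (Spec.map (StructureSheaf.toStalk B z') w')) := by
      rw [← hw', ← Scheme.Hom.comp_apply, ← Category.assoc, Scheme.SpecMap_stalkMap_fromSpecStalk,
        Category.assoc, hcomm]
      rw [AlgebraicGeometry.Spec.fromSpecStalk_eq']
      rfl
    have hfB : (f : F) ∈ (LocalSubring.ofPrime B z'.asIdeal).toSubring :=
      LocalSubring.le_ofPrime B z'.asIdeal (hAB f.2)
    have h5 := hJ (Ideal.comap e1 (show PrimeSpectrum ((Sp B).presheaf.stalk z) from w').asIdeal)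
      inferInstance ⟨(f : F), hfB⟩ rfl
    rw [h4, hU]
    have h6 : e1 ⟨(f : F), hfB⟩ = (StructureSheaf.toStalk B z').hom ⟨(f : F), hAB f.2⟩ :=
      stalkEquiv_coe B z' ⟨(f : F), hAB f.2⟩ ⟨(f : F), hfB⟩ rfl
    rw [Ideal.mem_comap, h6] at h5
    refine Iff.trans ?_ (h5.trans ?_)
    · exact Iff.rfl
    · refine forall₂_congr fun i hi => not_congr ?_
      rw [Ideal.mem_comap, ← hw']
      have h7 : (ι.stalkMap z).hom (E (x i)) = e1 (x i) := e2.apply_symm_apply (e1 (x i))
      rw [← h7]
      exact Iff.rfl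

end Run7.h216.SC
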